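import Mathlib

open Set Topology Ordinal

namespace Pool.Agent.Results.MP_231ef3_gt.PlankNotSetSelfTietze

/-- A set-valued map `F : Y → Set X` is upper semi-continuous: for every open `U ⊆ X` the set
`{y | F y ⊆ U}` is open in `Y`. -/
def IsUsc {Y X : Type*} [TopologicalSpace Y] [TopologicalSpace X] (F : Y → Set X) : Prop :=
  ∀ U : Set X, IsOpen U → IsOpen {y : Y | F y ⊆ U}

/-- `X` is set-self-Tietze: for every closed `A ⊆ X` and every upper semi-continuous
`f : A → 2^X` (values are the non-empty closed subsets of `X`) there is an upper semi-continuous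
`F : X → 2^X` with `F a = f a` for all `a ∈ A`. -/
def SetSelfTietze (X : Type*) [TopologicalSpace X] : Prop :=
  ∀ A : Set X, IsClosed A → ∀ f : A → Set X,
    (∀ a, (f a).Nonempty ∧ IsClosed (f a)) → IsUsc f →
      ∃ F : X → Set X, (∀ x, (F x).Nonempty ∧ IsClosed (F x)) ∧ IsUsc F ∧
        ∀ a : A, F a = f a

/-- The Tychonoff plank `[0, ω₁] × [0, ω]`, the product of two ordinal spaces with their order
topologies (the order topology of `[0, a]` is the subspace topology from `Ordinal`). -/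
abbrev Plank : Type 1 := Set.Iic (ω₁ : Ordinal.{0}) × Set.Iic (ω : Ordinal.{0})

/-- The Tychonoff plank is not set-self-Tietze. -/
theorem result : ¬ SetSelfTietze Plank := by
  classical
  intro h
  -- the two distinct values
  obtain ⟨p, q, hpq⟩ : ∃ p q : Plank, p ≠ q := by
    refine ⟨(⊥, ⊥), (⊥, ⊤), ?_⟩
    intro h
    have h2 : (⊥ : Set.Iic (ω : Ordinal.{0})) = ⊤ := (Prod.ext_iff.1 h).2
    have h3 := congrArg (fun x : Set.Iic (ω : Ordinal.{0}) => (x : Ordinal.{0})) h2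
    have h4 : (0 : Ordinal.{0}) = ω := by simpa using h3
    exact omega0_ne_zero h4.symm
  let A : Set Plank := {t | t.2 = ⊤ ∨ t.1 = ⊤}
  have hA : IsClosed A := by
    have h1 : IsClosed {t : Plank | t.2 = ⊤} := isClosed_eq continuous_snd continuous_const
    have h2 : IsClosed {t : Plank | t.1 = ⊤} := isClosed_eq continuous_fst continuous_const
    exact h1.union h2
  let f : A → Set Plank := fun a => {x | (x = p ∧ a.1.2 = ⊤) ∨ (x = q ∧ a.1.1 = ⊤)}
  have hf : ∀ a, (f a).Nonempty ∧ IsClosed (f a) := by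
    intro a
    constructor
    · rcases a.2 with h1 | h1
      · exact ⟨p, Or.inl ⟨rfl, h1⟩⟩
      · exact ⟨q, Or.inr ⟨rfl, h1⟩⟩
    · have hfin : (f a).Finite := by
        refine (Set.toFinite ({p, q} : Set Plank)).subset ?_
        rintro x (⟨rfl, -⟩ | ⟨rfl, -⟩) <;> simp
      exact hfin.isClosed
  have hfusc : IsUsc f := by
    intro U hU
    have h1 : IsOpen {a : A | a.1.2 = ⊤ → p ∈ U} := by
      by_cases hp : p ∈ U
      · simp [hp]
      · have : IsClosed {a : A | a.1.2 = ⊤} :=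
          isClosed_eq (continuous_snd.comp continuous_subtype_val) continuous_const
        have h2 := this.isOpen_compl
        convert h2 using 1
        ext a
        simp [hp]
    have h2 : IsOpen {a : A | a.1.1 = ⊤ → q ∈ U} := by
      by_cases hq : q ∈ U
      · simp [hq]
      · have : IsClosed {a : A | a.1.1 = ⊤} :=
          isClosed_eq (continuous_fst.comp continuous_subtype_val) continuous_const
        have h2 := this.isOpen_compl
        convert h2 using 1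
        ext a
        simp [hq]
    convert h1.inter h2 using 1
    ext a
    constructor
    · intro ha
      exact ⟨fun h => ha (Or.inl ⟨rfl, h⟩), fun h => ha (Or.inr ⟨rfl, h⟩)⟩
    · rintro ⟨h3, h4⟩ x (⟨rfl, h⟩ | ⟨rfl, h⟩)
      · exact h3 h
      · exact h4 h
  obtain ⟨F, hF, hFusc, hFf⟩ := h A hA f hf hfusc
  obtain ⟨U, V, hU, hV, hpU, hqV, hUV⟩ := t2_separation hpq
  have hW1 : IsOpen {t : Plank | F t ⊆ U} := hFusc U hU
  have hW2 : IsOpen {t : Plank | F t ⊆ V} := hFusc V hV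
  have hdisj : ∀ t : Plank, F t ⊆ U → F t ⊆ V → False := by
    intro t h1 h2
    obtain ⟨x, hx⟩ := (hF t).1
    exact Set.disjoint_left.1 hUV (h1 hx) (h2 hx)
  -- the top edge minus the corner lies in `W1`
  have htop : ∀ a : Set.Iic (ω₁ : Ordinal.{0}), a ≠ ⊤ → F (a, ⊤) ⊆ U := by
    intro a ha
    have hmem : ((a, ⊤) : Plank) ∈ A := Or.inl rfl
    have := hFf ⟨(a, ⊤), hmem⟩
    rw [this]
    rintro x (⟨rfl, -⟩ | ⟨-, h⟩)
    · exact hpU
    · exact absurd h ha
  -- the right edge minus the corner lies in `W2`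
  have hright : ∀ b : Set.Iic (ω : Ordinal.{0}), b ≠ ⊤ → F (⊤, b) ⊆ V := by
    intro b hb
    have hmem : ((⊤, b) : Plank) ∈ A := Or.inr rfl
    have := hFf ⟨(⊤, b), hmem⟩
    rw [this]
    rintro x (⟨-, h⟩ | ⟨rfl, -⟩)
    · exact absurd h hb
    · exact hqV
  -- for each `n < ω` a tail of the `n`-th row lies in `W2`
  have hrow : ∀ n : ℕ, ∃ β : Ordinal.{0}, β < ω₁ ∧ ∀ a : Set.Iic (ω₁ : Ordinal.{0}),
      β < a.1 → F (a, ⟨n, (natCast_lt_omega0 n).le⟩) ⊆ V := by
    intro n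
    set b : Set.Iic (ω : Ordinal.{0}) := ⟨n, (natCast_lt_omega0 n).le⟩ with hb
    have hbne : b ≠ ⊤ := by
      intro h
      have h3 := congrArg (fun x : Set.Iic (ω : Ordinal.{0}) => (x : Ordinal.{0})) h
      have h4 : ((n : ℕ) : Ordinal.{0}) = ω := by simpa [hb] using h3
      exact (natCast_lt_omega0 n).ne h4
    have hopen : IsOpen {a : Set.Iic (ω₁ : Ordinal.{0}) | F (a, b) ⊆ V} :=
      hW2.preimage (Continuous.prodMk_left b)
    have hmem : {a : Set.Iic (ω₁ : Ordinal.{0}) | F (a, b) ⊆ V} ∈ 𝓝 ⊤ :=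
      hopen.mem_nhds (hright b hbne)
    have hbot : (⊥ : Set.Iic (ω₁ : Ordinal.{0})) < ⊤ := by
      rw [← Subtype.coe_lt_coe]
      simpa using (omega_pos 1)
    obtain ⟨l, hl, hl2⟩ := exists_Ioc_subset_of_mem_nhds hmem ⟨⊥, hbot⟩
    refine ⟨l.1, ?_, ?_⟩
    · have h5 : (l : Ordinal.{0}) < ((⊤ : Set.Iic (ω₁ : Ordinal.{0})) : Ordinal.{0}) :=
        Subtype.coe_lt_coe.2 hl
      simpa using h5
    · intro a ha
      exact hl2 ⟨Subtype.coe_lt_coe.1 ha, le_top⟩
  choose β hβ hβ2 using hrow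
  have hsup : ⨆ n, β n < ω₁ := Ordinal.iSup_lt_omega_one hβ
  have hsucc : Order.succ (⨆ n, β n) < ω₁ :=
    (Cardinal.isSuccLimit_omega 1).succ_lt hsup
  -- the column of `α = sup β + 1 < ω₁`
  let a : Set.Iic (ω₁ : Ordinal.{0}) := ⟨Order.succ (⨆ n, β n), hsucc.le⟩
  have hane : a ≠ ⊤ := by
    intro h
    have h3 := congrArg (fun x : Set.Iic (ω₁ : Ordinal.{0}) => (x : Ordinal.{0})) h
    have h4 : Order.succ (⨆ n, β n) = ω₁ := by simpa [a] using h3
    exact hsucc.ne h4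
  have hopen : IsOpen {b : Set.Iic (ω : Ordinal.{0}) | F (a, b) ⊆ U} :=
    hW1.preimage (Continuous.prodMk_right a)
  have hmem : {b : Set.Iic (ω : Ordinal.{0}) | F (a, b) ⊆ U} ∈ 𝓝 ⊤ :=
    hopen.mem_nhds (htop a hane)
  have hbot : (⊥ : Set.Iic (ω : Ordinal.{0})) < ⊤ := by
    rw [← Subtype.coe_lt_coe]
    exact omega0_pos
  obtain ⟨l, hl, hl2⟩ := exists_Ioc_subset_of_mem_nhds hmem ⟨⊥, hbot⟩
  have hlω : (l : Ordinal.{0}) < ω := by
    have h5 : (l : Ordinal.{0}) < ((⊤ : Set.Iic (ω : Ordinal.{0})) : Ordinal.{0}) :=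
      Subtype.coe_lt_coe.2 hl
    simpa using h5
  obtain ⟨m, hm⟩ := lt_omega0.1 hlω
  have h6 : F (a, ⟨((m + 1 : ℕ) : Ordinal.{0}), (natCast_lt_omega0 (m + 1)).le⟩) ⊆ U := by
    apply hl2
    refine ⟨?_, le_top⟩
    rw [← Subtype.coe_lt_coe, hm]
    show ((m : ℕ) : Ordinal.{0}) < ((m + 1 : ℕ) : Ordinal.{0})
    exact_mod_cast Nat.lt_succ_self m
  have h7 : F (a, ⟨((m + 1 : ℕ) : Ordinal.{0}), (natCast_lt_omega0 (m + 1)).le⟩) ⊆ V := by
    apply hβ2
    exact (Ordinal.le_iSup β (m + 1)).trans_lt (Order.lt_succ _)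
  exact hdisj _ h6 h7

end Pool.Agent.Results.MP_231ef3_gt.PlankNotSetSelfTietze
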